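import Pool.Agent.Helper69.NR.Loss
import Pool.Agent.Helper57.NS.Defs

/-!
# NS: the loss from the zeros off the line, one scale, with any power of `M`
-/

set_option autoImplicit false
open MeasureTheory Set Filter Topology
open Pool.Agent.Helper57.Zeta Pool.Agent.Helper57.LH Pool.Agent.Helper57.ED
open Pool.Agent.Helper54.LG (za zb qk SS MM)
open Pool.Agent.Helper93.UG (zc sp)
open Pool.Agent.Helper69.UG (XX NX near far)
open Pool.Agent.Helper57.TX (QX DP rs)

namespace Pool.Agent.Helper69.NS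

open Pool.Agent.Helper69.NR (ss_tail mm_main69)

lemma exp_tailB (B : ℕ) {κ M : ℝ} (hκ : 0 < κ) (hM : 0 < M) : Real.exp (-(κ * M)) ≤ ((B.factorial : ℝ) / κ ^ B) / M ^ B := by
  have h1 := Real.pow_div_factorial_le_exp (κ * M) (by positivity) B
  have hf : 0 < (B.factorial : ℝ) := by exact_mod_cast B.factorial_pos
  have h3 : 0 < (κ * M) ^ B / (B.factorial : ℝ) := by positivity
  rw [Real.exp_neg]
  calc (Real.exp (κ * M))⁻¹ ≤ ((κ * M) ^ B / (B.factorial : ℝ))⁻¹ := inv_anti₀ h3 h1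
    _ = ((B.factorial : ℝ) / κ ^ B) / M ^ B := by
        rw [mul_pow]
        field_simp

/-- The loss for one scale, in the thick form, with the majorants, outside a set of measure `O(M^(-B) T)`. -/
theorem loss_pow (q : ℕ) : ∃ C M₀ T₀ : ℝ, 0 < C ∧ 1 ≤ M₀ ∧ ∀ T M : ℝ, T₀ ≤ T → M₀ ≤ M → M ≤ Real.log T → ∃ B : Set ℝ,
    volume B ≤ ENNReal.ofReal (C / M ^ q * T) ∧ ∀ t' ∈ Pool.Agent.Helper57.TX.JJ T, t' ∉ B →
      |SS (XX T M) t'| ≤ M ∧ ∀ t, |t - t'| ≤ sp T →
        |NX (XX T M) t - (MM (XX T M) t - SS (XX T M) t)| ≤ C / √M ∧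
        near T M (8 * (q + 3) * Real.log M) t ≤ C * M ∧ far T M (8 * (q + 3) * Real.log M) t ≤ C / M ^ 2 := by
  obtain ⟨C1, hC1, h1⟩ := Pool.Agent.Helper87.UG.loss_pt
  obtain ⟨C2, c2, hC2, hc2, h2⟩ := Pool.Agent.Helper87.UG.near_pt
  obtain ⟨C3, Y0, T3, hC3, h3⟩ := Pool.Agent.Helper53.TX.far0
  obtain ⟨κ, M4, T4, hκ, hM4, h4⟩ := ss_tail
  obtain ⟨C5, T5, hC5, h5⟩ := mm_main69
  have hm : 0 < min 1 c2 := lt_min one_pos hc2
  obtain ⟨A, hA⟩ : ∃ A : ℝ, A = 8 * (q + 3) := ⟨_, rfl⟩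
  have hq0 : (0:ℝ) ≤ q := Nat.cast_nonneg q
  have hA24 : 24 ≤ A := by rw [hA]; linarith
  have hA0 : 0 < A := by linarith
  rw [← hA]
  refine ⟨(q.factorial : ℝ) / κ ^ q + C3 + C1 * (32 * A ^ 2 * (C2 * (3 + C5)) + 2) + 2 * (C2 * (3 + C5)) + 2,
    max (max 16 M4) (max ((2 * A / min 1 c2) ^ 2) (Real.exp |Y0|)), max (max T3 T4) (max T5 3), by positivity,
    le_max_of_le_left (le_max_of_le_left (by norm_num)), fun T M hT hM hMT => ?_⟩
  simp only [max_le_iff] at hT hM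
  obtain ⟨⟨hT3, hT4⟩, hT5, hT33⟩ := hT
  obtain ⟨⟨hM16, hMM4⟩, hMc, hMY⟩ := hM
  have hM0 : 0 < M := by linarith
  have hM1 : 1 ≤ M := by linarith
  have hT0 : 0 < T := by linarith
  have hT1 : 1 < T := by linarith
  have hL : 0 < Real.log T := by linarith
  have hlogM : 0 < Real.log M := Real.log_pos (by linarith)
  have hsq : 0 < √M := Real.sqrt_pos.2 hM0
  have hsq1 : 1 ≤ √M := by rw [Real.one_le_sqrt]; exact hM1
  have hss : √M * √M = M := Real.mul_self_sqrt hM0.le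
  obtain ⟨Y, hY⟩ : ∃ Y, Y = A * Real.log M := ⟨_, rfl⟩
  rw [← hY]
  have hY0 : 0 < Y := by rw [hY]; positivity
  have hlog1 : Real.log M ≤ 2 * √M := by
    have := Real.log_le_rpow_div hM0.le (show (0:ℝ) < 1 / 2 by norm_num)
    rw [← Real.sqrt_eq_rpow] at this
    linarith
  have hlog2 : Real.log M ^ 2 ≤ 16 * √M := by
    have h := Real.log_le_rpow_div hM0.le (show (0:ℝ) < 1 / 4 by norm_num)
    have e : (M ^ (1 / 4 : ℝ)) ^ 2 = √M := by
      rw [← Real.rpow_natCast, ← Real.rpow_mul hM0.le, Real.sqrt_eq_rpow]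
      norm_num
    have e2 : Real.log M ≤ 4 * M ^ (1 / 4 : ℝ) := by linarith
    calc Real.log M ^ 2 ≤ (4 * M ^ (1 / 4 : ℝ)) ^ 2 := by gcongr
      _ = 16 * √M := by rw [mul_pow, e]; norm_num
  have hYm : Y ≤ min 1 c2 * M := by
    have e1 : 2 * A / min 1 c2 ≤ √M := Real.le_sqrt_of_sq_le hMc
    have e2 : 2 * A ≤ √M * min 1 c2 := by rwa [div_le_iff₀ hm] at e1
    calc Y ≤ 2 * A * √M := by rw [hY]; nlinarith
      _ ≤ (√M * min 1 c2) * √M := by gcongr
      _ = min 1 c2 * (√M * √M) := by ring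
      _ = min 1 c2 * M := by rw [hss]
  have hYM : Y ≤ M := by
    refine hYm.trans ((mul_le_mul_of_nonneg_right (min_le_left _ _) hM0.le).trans ?_)
    rw [one_mul]
  have hYc : Y ≤ c2 * M := hYm.trans (mul_le_mul_of_nonneg_right (min_le_right _ _) hM0.le)
  have hYY : Y0 ≤ Y := by
    have e1 : |Y0| ≤ Real.log M := by
      rw [Real.le_log_iff_exp_le hM0]
      exact hMY
    have e2 := le_abs_self Y0
    rw [hY]
    nlinarith
  obtain ⟨i3, b3⟩ := h3 T M Y hT3 hM16 hMT hYY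
  have b4 := h4 T M hT4 hMM4 hMT
  have hJ : MeasurableSet (Pool.Agent.Helper57.TX.JJ T) := measurableSet_Icc
  have hf0 : ∀ t, 0 ≤ far T M Y t := fun t => Pool.Agent.Helper87.UG.far_nonneg T M Y t
  have hexp : Real.exp (-(Y / 8)) ≤ 1 / M ^ (q + 3) := by
    have e1 : M ^ (q + 3) = Real.exp ((q + 3) * Real.log M) := by
      rw [← Real.rpow_natCast, Real.rpow_def_of_pos hM0]
      push_cast
      rw [mul_comm]
    rw [e1, one_div, ← Real.exp_neg]
    apply Real.exp_le_exp.2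
    rw [hY, hA]
    linarith
  have m3 : volume {t : ℝ | t ∈ Pool.Agent.Helper57.TX.JJ T ∧ 1 / M ^ 2 < far T M Y t} ≤
      ENNReal.ofReal (C3 / M ^ q * T) := by
    refine Pool.Agent.Helper87.TX.markov hJ i3 hf0 (by positivity) (b3.trans ?_)
    calc C3 * M * Real.exp (-(Y / 8)) * T ≤ C3 * M * (1 / M ^ (q + 3)) * T := by gcongr
      _ = 1 / M ^ 2 * (C3 / M ^ q * T) := by
          rw [show M ^ (q + 3) = M ^ q * M ^ 2 * M by ring]
          field_simp
  refine ⟨{t : ℝ | t ∈ Pool.Agent.Helper57.TX.JJ T ∧ M < |SS (XX T M) t|} ∪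
    {t : ℝ | t ∈ Pool.Agent.Helper57.TX.JJ T ∧ 1 / M ^ 2 < far T M Y t}, ?_, ?_⟩
  · refine (measure_union_le _ _).trans ((add_le_add b4 m3).trans ?_)
    rw [← ENNReal.ofReal_add (by positivity) (by positivity)]
    apply ENNReal.ofReal_le_ofReal
    calc Real.exp (-(κ * M)) * T + C3 / M ^ q * T ≤ ((q.factorial : ℝ) / κ ^ q) / M ^ q * T + C3 / M ^ q * T := by
          have := exp_tailB q hκ hM0
          gcongr
      _ = ((q.factorial : ℝ) / κ ^ q + C3) / M ^ q * T := by ring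
      _ ≤ _ := by
          apply mul_le_mul_of_nonneg_right _ hT0.le
          apply div_le_div_of_nonneg_right _ (by positivity)
          have : 0 < C1 * (32 * A ^ 2 * (C2 * (3 + C5)) + 2) + 2 * (C2 * (3 + C5)) + 2 := by positivity
          linarith
  · intro t' ht' hB
    simp only [mem_union, mem_setOf_eq, not_or, not_and, not_lt] at hB
    have c1 := hB.1 ht'
    have c2' := hB.2 ht'
    refine ⟨c1, fun t htt => ?_⟩
    have n1 : near T M Y t' ≤ C2 * (3 + C5) * M := by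
      have e1 := h2 T M Y t' hT33 hM0 hY0 hYc
      have e2 := (abs_le.1 (h5 T M t' hT5 hM1 hMT ht')).2
      have e3 : C5 * (M / Real.log T) ≤ C5 * M := by
        have : M / Real.log T ≤ 1 := by rw [div_le_one hL]; exact hMT
        have : M / Real.log T ≤ M := by linarith
        gcongr
      have e4 := neg_abs_le (SS (XX T M) t')
      have e5 : 1 / M ^ 2 ≤ M := by
        rw [div_le_iff₀ (by positivity)]
        have : 1 ≤ M ^ 3 := one_le_pow₀ hM1
        nlinarith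
      calc near T M Y t' ≤ C2 * (MM (XX T M) t' - SS (XX T M) t' + far T M Y t') := e1
        _ ≤ C2 * ((3 + C5) * M) := by
            apply mul_le_mul_of_nonneg_left _ hC2.le
            nlinarith
        _ = _ := by ring
    have n2 := Pool.Agent.Helper99.NR.near_comp Y hT1 hM16 htt
    have n3 := Pool.Agent.Helper99.NR.far_comp Y hT1 hM16 htt
    have hn0 := Pool.Agent.Helper87.UG.near_nonneg T M Y t
    have hf := Pool.Agent.Helper87.UG.far_nonneg T M Y t
    have n4 : near T M Y t ≤ 2 * (C2 * (3 + C5)) * M := by nlinarith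
    have n5 : far T M Y t ≤ 2 / M ^ 2 := by
      calc far T M Y t ≤ 2 * (1 / M ^ 2) := by linarith
        _ = _ := by ring
    have hK : 0 < (q.factorial : ℝ) / κ ^ q + C3 := by positivity
    have hK1 : 0 < C1 * (32 * A ^ 2 * (C2 * (3 + C5)) + 2) := by positivity
    have hK2 : 0 < 2 * (C2 * (3 + C5)) := by positivity
    refine ⟨?_, ?_, ?_⟩
    · have e1 := h1 T M Y t 1 hT33 hM0 hY0 hYM (Or.inl rfl)
      rw [div_one] at e1
      have e2 : (Y / M) ^ 2 * near T M Y t ≤ 32 * A ^ 2 * (C2 * (3 + C5)) / √M := by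
        calc (Y / M) ^ 2 * near T M Y t ≤ (Y / M) ^ 2 * (2 * (C2 * (3 + C5)) * M) := by gcongr
          _ = A ^ 2 * Real.log M ^ 2 * (2 * (C2 * (3 + C5))) / M := by
              rw [hY]
              field_simp
          _ ≤ A ^ 2 * (16 * √M) * (2 * (C2 * (3 + C5))) / M := by gcongr
          _ = 32 * A ^ 2 * (C2 * (3 + C5)) / √M := by
              rw [div_eq_div_iff hM0.ne' hsq.ne']
              linear_combination 32 * A ^ 2 * (C2 * (3 + C5)) * hss
      have e3 : 2 / M ^ 2 ≤ 2 / √M := by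
        apply div_le_div_of_nonneg_left (by norm_num) hsq
        nlinarith
      calc |NX (XX T M) t - (MM (XX T M) t - SS (XX T M) t)| ≤ C1 * ((Y / M) ^ 2 * near T M Y t + far T M Y t) := e1
        _ ≤ C1 * (32 * A ^ 2 * (C2 * (3 + C5)) / √M + 2 / √M) := by
            apply mul_le_mul_of_nonneg_left _ hC1.le
            linarith
        _ = C1 * (32 * A ^ 2 * (C2 * (3 + C5)) + 2) / √M := by ring
        _ ≤ _ := by
            apply div_le_div_of_nonneg_right _ hsq.le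
            linarith
    · refine n4.trans (mul_le_mul_of_nonneg_right ?_ hM0.le)
      linarith
    · refine n5.trans (div_le_div_of_nonneg_right ?_ (by positivity))
      linarith


open Pool.Agent.Helper57.NS (Thick)

/-- A: the loss for one scale with any power, thick -/
theorem loss_thick (B : ℕ) : ∃ C M₀ T₀ : ℝ, 0 < C ∧ 1 ≤ M₀ ∧ ∀ T M : ℝ, T₀ ≤ T → M₀ ≤ M → M ≤ Real.log T →
    Thick T (C / M ^ B) (C / M ^ (1 / 4 : ℝ)) (fun u => NX (XX T M) u - (MM (XX T M) u - SS (XX T M) u)) := by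
  obtain ⟨C, M₀, T₀, hC, hM₀, h⟩ := loss_pow B
  refine ⟨C, M₀, max T₀ 0, hC, hM₀, fun T M hT hM hMT => ?_⟩
  obtain ⟨E, hE, hE2⟩ := h T M ((le_max_left _ _).trans hT) hM hMT
  have hT0 : 0 ≤ T := (le_max_right _ _).trans hT
  have hM1 : 1 ≤ M := hM₀.trans hM
  have hM0 : 0 < M := by linarith
  have hr : 0 < M ^ (1 / 4 : ℝ) := by positivity
  have r2 : M ^ (1 / 4 : ℝ) ≤ √M := by
    rw [Real.sqrt_eq_rpow]
    exact Real.rpow_le_rpow_of_exponent_le hM1 (by norm_num)
  refine ⟨E, hE, fun t ht u hut hlt => ?_⟩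
  by_contra hn
  have ht' : t ∈ Pool.Agent.Helper57.TX.JJ T := ⟨ht.1, ht.2.trans (by linarith)⟩
  have g := ((hE2 t ht' hn).2 u hut).1
  have g2 : C / √M ≤ C / M ^ (1 / 4 : ℝ) := div_le_div_of_nonneg_left hC.le hr r2
  linarith

end Pool.Agent.Helper69.NS
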